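import Pool.Agent.Zk43.ExpOne
import Pool.Agent.X255.RH.Main

/-!
# Exponential points of families of varieties at ALL the roots of almost all integral polynomials

The axiom (SEAC) (i) asks that a free rotund variety `V` in `G_n` has exponential points `(z, exp z)` which are generic
in `V` over a finitely generated field over which `V` is defined. For varieties of dimension `n` this means that `n` of
the coordinates are algebraically independent over this field.

Let `V_x` be varieties of dimension `n` in `G_n` which depend algebraically on a complex parameter `x`, and let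
`(z(x), exp(z(x)))` be exponential points of `V_x` which depend analytically on `x`, such that no nontrivial combination
of the functions `z_i` with integral coefficients is constant. Let `b_1, …, b_n` be coordinates such that the other
coordinates of the points `(z(x), exp(z(x)))` are algebraic over them and `x`. Let `x_1, …, x_m` be all the conjugates of
an algebraic number of degree `g` in a compact subset `K` of the domain `U`. The exponential points at `x_1, …, x_m`
together are an exponential point of the variety `V_(x_1) × ⋯ × V_(x_m)`, of dimension `n m`, which for `m = g` is the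
variety `V_x` considered over `ℚ` (restriction of scalars), and by Schanuel's conjecture, the axiom (SC), the `n m`
coordinates are algebraically independent over any given finitely generated field, apart from few exceptions.

We show this in growing degree and height, relative to ARBITRARY complex numbers `ξ_0, ξ_1, …` (for instance the elements
of a countable exponential field).

(1) There is a function `ω(T) → ∞` such that for all polynomials over `ℤ` with coefficients at most `T`, except for the
proportion `1 / ω(T)`, the polynomial has the degree `g` and simple roots, and the coordinates of the exponential points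
at ALL roots in `K_(ω(T))` together satisfy no relation of degree at most `ω(T)` with coefficients `∑_{b < ω(T)} ξ_b c_b`,
`c_b` integers of number fields of degree at most `ω(T)` with conjugates at most `T ^ ω(T)`; here `K_0, K_1, …` are any
compact subsets of `U`, for instance with the union `U`.

(2) If the roots are in a compact position (of absolute value at most `R` and at distance at least `η` from each other)
there are at most `C T ^ (g + ε)` exceptions, for every `ε > 0`: a full power of `T` is saved.

The starting result `MP_209724_lc.GenericSolutions` is about the points over one fixed number field with given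
denominators; here the fields vary through all fields of degree `g`.

Proof: the coordinates are algebraically independent over `ℂ(x)` (Ax's theorem, `Pool.Agent.N207.AX.exp_ind`), and the
theorems on the values of algebraically independent functions at the roots of almost all polynomials
(`Pool.Agent.X255.RH.main_all`, `Pool.Agent.X255.RH.main_eps`) apply.
-/

set_option autoImplicit false

open Polynomial Filter Topology NumberField

namespace Pool.Agent.Results.MP_209724_lc.GenericAtAllRoots

/-- The coordinates `z_i(x)` and `exp(z_i(x))` of the exponential point `(z(x), exp(z(x)))` of `G_n`. -/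
noncomputable def point {n : ℕ} (z : Fin n → ℂ → ℂ) (i : Fin n ⊕ Fin n) (x : ℂ) : ℂ :=
  Sum.elim (fun i => z i x) (fun i => Complex.exp (z i x)) i

/-- The substitution of the number `x` and of the numbers `a_1, …, a_n` in a polynomial in `n + 1` variables; the
variable `none` is replaced by `x`. -/
noncomputable def subst {n : ℕ} (x : ℂ) (a : Fin n → ℂ) : MvPolynomial (Option (Fin n)) ℂ →+* ℂ :=
  MvPolynomial.eval fun o : Option (Fin n) => o.elim x a

/-- **Exponential points of a family of `n`-dimensional varieties in `G_n`**, with the coordinates `b_1, …, b_n`. -/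
structure Family {n : ℕ} (U : Set ℂ) (z : Fin n → ℂ → ℂ) (b : Fin n → Fin n ⊕ Fin n) : Prop where
  isOpen : IsOpen U
  isConnected : IsConnected U
  analytic : ∀ i, AnalyticOnNhd ℂ (z i) U
  /-- no nontrivial combination of the `z_i` with integral coefficients is constant -/
  free : ∀ (m : Fin n → ℤ) (c : ℂ), (∀ x ∈ U, ∑ i, (m i : ℂ) * z i x = c) → m = 0
  /-- every coordinate satisfies on `U` a polynomial equation `Q = 0` whose coefficients are polynomials in the
  parameter and the coordinates `b_1, …, b_n`, not all zero at all points of `U` -/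
  finite : ∀ i, ∃ Q : Polynomial (MvPolynomial (Option (Fin n)) ℂ),
    (∃ x ∈ U, Q.map (subst x fun k => point z (b k) x) ≠ 0) ∧
    ∀ x ∈ U, Q.eval₂ (subst x fun k => point z (b k) x) (point z i x) = 0

/-- The integral vectors `a = (a_0, …, a_g)` with `|a_i| ≤ T`. -/
noncomputable def box (g T : ℕ) : Finset (Fin (g + 1) → ℤ) := Fintype.piFinset fun _ => Finset.Icc (-(T : ℤ)) (T : ℤ)

/-- The polynomial `a_0 + a_1 x + … + a_g x^g`. -/
noncomputable def poly {g : ℕ} (a : Fin (g + 1) → ℤ) : ℂ[X] := ∑ i, C (a i : ℂ) * X ^ (i : ℕ)

/-- The roots of the polynomial with the coefficients `a` in the set `K`. -/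
noncomputable def roots {g : ℕ} (K : Set ℂ) (a : Fin (g + 1) → ℤ) : Finset ℂ := by
  classical exact (poly a).roots.toFinset.filter fun z => z ∈ K

/-- The numbers `x q` satisfy no relation of degree at most `k` in each of them with coefficients `∑_{b < k} ξ_b c_b`,
where the `c_b` are integers of a number field of degree at most `k` all of whose conjugates are at most `T ^ k`, except
the relations all of whose coefficients vanish. -/
def NoRelation {Q : Type} [Fintype Q] [DecidableEq Q] (ξ : ℕ → ℂ) (k : ℕ) (T : ℝ) (x : Q → ℂ) : Prop :=
  ∀ (F : Type) [Field F] [NumberField F], Module.finrank ℚ F ≤ k → ∀ (io : F →+* ℂ)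
    (c : (Q → Fin (k + 1)) → Fin k → 𝓞 F), (∀ l b (φ : F →+* ℂ), ‖φ (c l b : F)‖ ≤ T ^ k) →
    ∑ l, (∑ b : Fin k, ξ b * io (c l b : F)) * ∏ q, x q ^ (l q : ℕ) = 0 → ∀ l, ∑ b : Fin k, ξ b * io (c l b : F) = 0

/-- There is no relation between the coordinates `b_1, …, b_n` of the exponential points at all the roots in `K`
together. -/
def Independent {g n : ℕ} (z : Fin n → ℂ → ℂ) (b : Fin n → Fin n ⊕ Fin n) (K : Set ℂ) (ξ : ℕ → ℂ) (k : ℕ) (T : ℝ)
    (a : Fin (g + 1) → ℤ) : Prop :=
  NoRelation ξ k T fun v : {x // x ∈ roots K a} × Fin n => point z (b v.2) v.1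

/-- The polynomial with the coefficients `a` has degree `g` and simple roots, and there is no relation between the
coordinates at all its roots in `K` together. -/
def Good {g n : ℕ} (z : Fin n → ℂ → ℂ) (b : Fin n → Fin n ⊕ Fin n) (K : Set ℂ) (ξ : ℕ → ℂ) (k : ℕ) (T : ℝ)
    (a : Fin (g + 1) → ℤ) : Prop :=
  a (Fin.last g) ≠ 0 ∧ (poly a).Separable ∧ Independent z b K ξ k T a

/-- The polynomial with the coefficients `a` has degree `g` and simple roots, all of them are of absolute value at most
`R`, and the distance of any two of them is at least `η`. -/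
def Position {g : ℕ} (R η : ℝ) (a : Fin (g + 1) → ℤ) : Prop :=
  a (Fin.last g) ≠ 0 ∧ (poly a).Separable ∧ ∀ z, (poly a).eval z = 0 → ‖z‖ ≤ R ∧
    ∀ w, (poly a).eval w = 0 → w ≠ z → η ≤ ‖z - w‖

/-- a compact set has a positive distance from the complement of an open set which contains it -/
theorem exists_ball {K U : Set ℂ} (hK : IsCompact K) (hU : IsOpen U) (h : K ⊆ U) :
    ∃ c : ℝ, 0 < c ∧ ∀ z ∈ K, Metric.ball z c ⊆ U := by
  obtain ⟨c, hc, h1⟩ := hK.exists_thickening_subset_open hU h
  exact ⟨c, hc, fun z hz w hw => h1 (Metric.mem_thickening_iff.2 ⟨z, hz, hw⟩)⟩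

theorem tame {K U : Set ℂ} (hK : IsCompact K) (hU : IsOpen U) (h : K ⊆ U) : Pool.Agent.X255.RH.Tame K U := by
  obtain ⟨c, hc, h1⟩ := exists_ball hK hU h
  refine ⟨∅, c, hc, fun R => by simp, fun z hz w hw => Or.inr (Or.inr ?_)⟩
  by_contra hcon
  rw [not_le] at hcon
  refine hw (h1 z hz ?_)
  rwa [Metric.mem_ball, dist_comm, dist_eq_norm]

section
variable {n : ℕ} {U : Set ℂ} {z : Fin n → ℂ → ℂ} {b : Fin n → Fin n ⊕ Fin n}

theorem an (h : Family U z b) (k : Fin n) : AnalyticOnNhd ℂ (point z (b k)) U :=
  Pool.Agent.Zk43.ExpOne.point_an h.analytic (b k)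

theorem ind (h : Family U z b) : Pool.Agent.X255.RH.Indep U (fun k : Fin n => point z (b k)) := by
  obtain ⟨z0, hz0⟩ := h.isConnected.nonempty
  have h1 : Pool.Agent.Y124.LocInd (fun k : Fin n => point z (b k)) z0 :=
    Pool.Agent.Zk43.ExpOne.exp_locInd h.isOpen h.isConnected.isPreconnected h.analytic h.free h.finite hz0
  refine Pool.Agent.X255.RH.indep_of_aindepS fun P hP => h1 P ?_
  filter_upwards [h.isOpen.mem_nhds hz0] with z hz using hP z hz

end

open scoped Classical in
/-- **Theorem.** Let `z, b` be a family of exponential points on `U`, let `ξ_0, ξ_1, …` be complex numbers and `g ≥ 1`.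
(1) For every sequence `K_0, K_1, …` of compact subsets of `U` there is a function `ω(T) → ∞` such that all but at most
the proportion `1 / ω(T)` of the `(2 T + 1)^(g + 1)` integral polynomials with coefficients at most `T` have degree `g`,
simple roots, and no relation of degree and height at most `ω(T)`, `T ^ ω(T)` between the coordinates `b_1, …, b_n` of the
exponential points at all the roots in `K_(ω(T))`. (2) For every compact subset `K` of `U` and all `k`, `R`, `η > 0`,
`ε > 0` there is `C` such that the number of the polynomials with coefficients at most `T` with roots of absolute value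
at most `R` and distances at least `η`, for which there is a relation of degree and height at most `k`, `T ^ k` between
these coordinates at all roots in `K`, is at most `C T ^ (g + ε)`. -/
theorem result (g : ℕ) (hg : 0 < g) {n : ℕ} (U : Set ℂ) (z : Fin n → ℂ → ℂ) (b : Fin n → Fin n ⊕ Fin n)
    (h : Family U z b) (ξ : ℕ → ℂ) :
    (∀ K : ℕ → Set ℂ, (∀ k, IsCompact (K k) ∧ K k ⊆ U) →
      ∃ ω : ℕ → ℕ, Tendsto ω atTop atTop ∧ Monotone ω ∧ ∀ T : ℕ,
        ω T * ((box g T).filter fun a => ¬ Good z b (K (ω T)) ξ (ω T) T a).card ≤ (box g T).card) ∧
    ∀ K : Set ℂ, IsCompact K → K ⊆ U → ∀ (k : ℕ) (R η ε : ℝ), 0 < η → 0 < ε → ∃ B : ℝ, ∀ T : ℕ, 1 ≤ T →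
      (((box g T).filter fun a => Position R η a ∧ ¬ Independent z b K ξ k T a).card : ℝ) ≤
        B * (T : ℝ) ^ ((g : ℝ) + ε) := by
  refine ⟨fun K hK => ?_, fun K hK hKU k R η ε hη hε => ?_⟩
  · exact Pool.Agent.X255.RH.main_all hg h.isConnected.isPreconnected h.isOpen K
      (fun k => tame (hK k).1 h.isOpen (hK k).2) (an h) (ind h) ξ
  · obtain ⟨c, hc, h1⟩ := exists_ball hK h.isOpen hKU
    obtain ⟨B, hB⟩ := Pool.Agent.X255.RH.main_eps hg h.isConnected.isPreconnected h.isOpen (an h) (ind h) K ξ k R
      (min η c) ε (lt_min hη hc) hε
    refine ⟨B, fun T hT => (Nat.cast_le.2 (Finset.card_le_card ?_)).trans (hB T hT)⟩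
    intro a ha
    rw [Finset.mem_filter] at ha ⊢
    exact ⟨ha.1, ⟨ha.2.1.1, ha.2.1.2.1, fun z hz => ⟨(ha.2.1.2.2 z hz).1, fun w hw hwz =>
      (min_le_left _ _).trans ((ha.2.1.2.2 z hz).2 w hw hwz), fun hzK =>
        (Metric.ball_subset_ball (min_le_right _ _)).trans (h1 z hzK)⟩⟩, ha.2.2⟩

end Pool.Agent.Results.MP_209724_lc.GenericAtAllRoots
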